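import Pool.Agent.Lib.MP_4fbe7c_an.FC.Iface
import Pool.Agent.Lib.MP_4fbe7c_an.SD.Calc

/-!
Module YDER (helper82): the time derivative of `∫ h_x ^ 2` without mixed derivatives.
-/

set_option autoImplicit false

open Set Filter Topology MeasureTheory intervalIntegral
open scoped Interval

namespace Pool.Agent.Lib.MP_4fbe7c_an.FC.H82

open Pool.Agent.Lib.MP_4fbe7c_an.SD

/-- integration by parts for two functions, one with zero boundary values -/
theorem parts {L : ℝ} (hL : 0 < L) {F F' G G' : ℝ → ℝ} (hF : DerivOn L F F')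
    (hG : DerivOn L G G') (cF : ContinuousOn F' (Icc 0 L)) (cG : ContinuousOn G' (Icc 0 L))
    (h0 : F 0 = 0) (h1 : F L = 0) :
    ∫ x in (0)..L, F x * G' x = -∫ x in (0)..L, F' x * G x := by
  have hd : DerivOn L (fun x => F x * G x) (fun x => F' x * G x + F x * G' x) :=
    fun x hx => (hF x hx).mul (hG x hx)
  have c1 : ContinuousOn (fun x => F' x * G x) (Icc 0 L) := cF.mul hG.continuousOn
  have c2 : ContinuousOn (fun x => F x * G' x) (Icc 0 L) := hF.continuousOn.mul cG
  have e := integral_deriv hL hd (c1.add c2)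
  rw [intervalIntegral.integral_add (c1.intervalIntegrable_of_Icc hL.le)
    (c2.intervalIntegrable_of_Icc hL.le), h0, h1] at e
  linarith

theorem yder : YDerStatement := by
  intro L h h1 h2 ht hL ch ch1 ch2 cht d1 d2 hb dt t t0
  have hK : IsCompact (Icc (t / 2) (2 * t) ×ˢ Icc 0 L) := isCompact_Icc.prod isCompact_Icc
  have hsub : Icc (t / 2) (2 * t) ×ˢ Icc 0 L ⊆ Ioi 0 ×ˢ Icc 0 L := by
    rintro ⟨s, x⟩ ⟨hs, hx⟩
    exact ⟨lt_of_lt_of_le (by linarith) hs.1, hx⟩
  obtain ⟨B, hB⟩ := hK.exists_bound_of_continuousOn (cht.mono hsub)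
  obtain ⟨B2, hB2⟩ := hK.exists_bound_of_continuousOn (ch2.mono hsub)
  have htm : t ∈ Icc (t / 2) (2 * t) := ⟨by linarith, by linarith⟩
  have hball : Icc (t / 2) (2 * t) ∈ 𝓝 t := Icc_mem_nhds (by linarith) (by linarith)
  have hball' : ∀ᶠ s in 𝓝[≠] t, s ∈ Icc (t / 2) (2 * t) := nhdsWithin_le_nhds hball
  have hne : ∀ᶠ s in 𝓝[≠] t, s ≠ t := self_mem_nhdsWithin
  have hpos : ∀ s ∈ Icc (t / 2) (2 * t), 0 < s := fun s hs => lt_of_lt_of_le (by linarith) hs.1
  have hIoc : Ι (0:ℝ) L ⊆ Icc 0 L := by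
    rw [uIoc_of_le hL.le]; exact Ioc_subset_Icc_self
  have s0 : ∀ s, 0 < s → ContinuousOn (h s) (Icc 0 L) := fun s hs => slice ch (mem_Ioi.2 hs)
  have s1 : ∀ s, 0 < s → ContinuousOn (h1 s) (Icc 0 L) := fun s hs => slice ch1 (mem_Ioi.2 hs)
  have s2 : ∀ s, 0 < s → ContinuousOn (h2 s) (Icc 0 L) := fun s hs => slice ch2 (mem_Ioi.2 hs)
  have key : ∀ s, 0 < s → (∫ x in (0)..L, h1 s x ^ 2) - (∫ x in (0)..L, h1 t x ^ 2) =
      -∫ x in (0)..L, (h2 s x + h2 t x) * (h s x - h t x) := by
    intro s hs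
    have i1 : IntervalIntegrable (fun x => h1 s x ^ 2) volume 0 L :=
      ((s1 s hs).pow 2).intervalIntegrable_of_Icc hL.le
    have i2 : IntervalIntegrable (fun x => h1 t x ^ 2) volume 0 L :=
      ((s1 t t0).pow 2).intervalIntegrable_of_Icc hL.le
    rw [← intervalIntegral.integral_sub i1 i2]
    have e := parts hL (F := fun x => h1 s x + h1 t x) (F' := fun x => h2 s x + h2 t x)
      (G := fun x => h s x - h t x) (G' := fun x => h1 s x - h1 t x)
      (fun x hx => (d2 s hs x hx).add (d2 t t0 x hx))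
      (fun x hx => (d1 s hs x hx).sub (d1 t t0 x hx))
      ((s2 s hs).add (s2 t t0)) ((s1 s hs).sub (s1 t t0))
      (by simp only [(hb s hs).1, (hb t t0).1, add_zero])
      (by simp only [(hb s hs).2, (hb t t0).2, add_zero])
    rw [← e]
    refine intervalIntegral.integral_congr fun x _ => ?_
    ring
  have hlip : ∀ s ∈ Icc (t / 2) (2 * t), ∀ x ∈ Icc 0 L, |h s x - h t x| ≤ B * |s - t| := by
    intro s hs x hx
    have := Convex.norm_image_sub_le_of_norm_hasDerivWithin_le (f := fun r => h r x)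
      (f' := fun r => ht r x) (s := Icc (t / 2) (2 * t)) (C := B)
      (fun r hr => (dt r (hpos r hr) x hx).hasDerivWithinAt)
      (fun r hr => hB (r, x) ⟨hr, hx⟩) (convex_Icc _ _) htm hs
    simpa [Real.norm_eq_abs] using this
  have lim : Tendsto (fun s => ∫ x in (0)..L, (h2 s x + h2 t x) * ((h s x - h t x) / (s - t)))
      (𝓝[≠] t) (𝓝 (∫ x in (0)..L, (h2 t x + h2 t x) * ht t x)) := by
    refine intervalIntegral.tendsto_integral_filter_of_dominated_convergence
      (bound := fun _ => (B2 + B2) * B) ?_ ?_ ?_ ?_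
    · filter_upwards [hball'] with s hs
      have c : ContinuousOn (fun x => (h2 s x + h2 t x) * ((h s x - h t x) / (s - t)))
          (Icc 0 L) := ((s2 s (hpos s hs)).add (s2 t t0)).mul
        (((s0 s (hpos s hs)).sub (s0 t t0)).div_const _)
      exact (c.mono hIoc).aestronglyMeasurable measurableSet_uIoc
    · filter_upwards [hball', hne] with s hs hst
      refine Eventually.of_forall fun x hx => ?_
      have hx' := hIoc hx
      have hst' : 0 < |s - t| := abs_pos.2 (sub_ne_zero.2 hst)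
      rw [Real.norm_eq_abs, abs_mul, abs_div]
      have e1 : |h2 s x + h2 t x| ≤ B2 + B2 :=
        (abs_add_le _ _).trans (add_le_add (hB2 (s, x) ⟨hs, hx'⟩) (hB2 (t, x) ⟨htm, hx'⟩))
      have e2 : |h s x - h t x| / |s - t| ≤ B := by
        rw [div_le_iff₀ hst']
        exact hlip s hs x hx'
      exact mul_le_mul e1 e2 (by positivity) ((abs_nonneg _).trans e1)
    · exact intervalIntegrable_const
    · refine Eventually.of_forall fun x hx => ?_
      have hx' := hIoc hx
      have c2 : Tendsto (fun s => h2 s x) (𝓝[≠] t) (𝓝 (h2 t x)) := by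
        have c3 : ContinuousOn (fun s : ℝ => h2 s x) (Ioi 0) :=
          ch2.comp (f := fun s : ℝ => ((s, x) : ℝ × ℝ)) (by fun_prop)
            fun s hs => mk_mem_prod hs hx'
        exact (c3.continuousAt (Ioi_mem_nhds t0)).tendsto.mono_left nhdsWithin_le_nhds
      have c4 : Tendsto (fun s => (h s x - h t x) / (s - t)) (𝓝[≠] t) (𝓝 (ht t x)) := by
        have := (hasDerivAt_iff_tendsto_slope.1 (dt t t0 x hx'))
        refine this.congr fun s => ?_
        rw [slope_def_field]
      exact (c2.add_const _).mul c4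
  rw [hasDerivAt_iff_tendsto_slope]
  have e2 : -(2 * ∫ x in (0)..L, h2 t x * ht t x) =
      -∫ x in (0)..L, (h2 t x + h2 t x) * ht t x := by
    rw [← intervalIntegral.integral_const_mul]
    congr 1
    refine intervalIntegral.integral_congr fun x _ => ?_
    ring
  rw [e2]
  refine lim.neg.congr' ?_
  filter_upwards [hball', hne] with s hs hst
  rw [slope_def_field, key s (hpos s hs), neg_div, ← intervalIntegral.integral_div]
  congr 1
  refine intervalIntegral.integral_congr fun x _ => ?_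
  ring

end Pool.Agent.Lib.MP_4fbe7c_an.FC.H82
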