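import Pool.Agent.Lib.MP_4fbe7c_an.FC.Iface
import Pool.Agent.Lib.MP_4fbe7c_an.SD.Logg

/-!
Module YINE (helper82): the differential inequality for `∫ |(log u_i)_x| ^ 2`.
-/

set_option autoImplicit false

open Set Filter Topology MeasureTheory intervalIntegral
open scoped Interval

namespace Pool.Agent.Lib.MP_4fbe7c_an.FC.H82

open Pool.Agent.Lib.MP_4fbe7c_an.SD

/-- a function with one zero boundary value is controlled by its derivative -/
theorem sq_le_of_zero {L : ℝ} (hL : 0 < L) {g g' : ℝ → ℝ} (h : DerivOn L g g')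
    (hc : ContinuousOn g' (Icc 0 L)) (h0 : g 0 = 0) {x : ℝ} (hx : x ∈ Icc 0 L) :
    g x ^ 2 ≤ L * ∫ z in (0)..L, g' z ^ 2 := by
  have hY : 0 ≤ ∫ z in (0)..L, g' z ^ 2 :=
    intervalIntegral.integral_nonneg hL.le fun z _ => sq_nonneg _
  by_cases hA : g x = 0
  · rw [hA, sq, mul_zero]
    exact mul_nonneg hL.le hY
  · have hA' : 0 < |g x| := abs_pos.2 hA
    have e := osc_le_log hL h hc (lam := L / |g x|) (by positivity) (x := 0) (y := x)
      ⟨le_rfl, hL.le⟩ hx
    rw [h0, sub_zero] at e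
    have e2 : L / (L / |g x|) = |g x| := by field_simp
    rw [e2] at e
    have e3 : |g x| ≤ L / |g x| * ∫ z in (0)..L, g' z ^ 2 := by linarith
    rw [← sq_abs, sq]
    calc |g x| * |g x| ≤ (L / |g x| * ∫ z in (0)..L, g' z ^ 2) * |g x| :=
          mul_le_mul_of_nonneg_right e3 hA'.le
      _ = L * ∫ z in (0)..L, g' z ^ 2 := by field_simp

theorem yine (hy : YDerStatement) : YIneStatement := by
  intro L M m N d u v w i hc hp t t0
  have hL := hc.hL
  have hS := hc.sol
  have hdi := hc.hd i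
  have cu : ContinuousOn (fun p : ℝ × ℝ => u i p.1 p.2) (Ioi 0 ×ˢ Icc 0 L) := hS.cuIoi_log i
  have hne : ∀ p ∈ (Ioi (0 : ℝ) ×ˢ Icc (0 : ℝ) L), u i p.1 p.2 ≠ 0 :=
    fun p hp' => (hp p.1 hp'.1 p.2 hp'.2).ne'
  have cR : ContinuousOn (fun p : ℝ × ℝ => m p.2 - ∑ j, u j p.1 p.2) (Ioi 0 ×ˢ Icc 0 L) :=
    (hS.cont_rate_log hc.hm).mono (prod_mono Ioi_subset_Ici_self subset_rfl)
  have ch : ContinuousOn (fun p : ℝ × ℝ => Real.log (u i p.1 p.2)) (Ioi 0 ×ˢ Icc 0 L) :=
    cu.log hne
  have ch1 : ContinuousOn (fun p : ℝ × ℝ => v i p.1 p.2 / u i p.1 p.2) (Ioi 0 ×ˢ Icc 0 L) :=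
    (hS.cv i).div cu hne
  have ch2 : ContinuousOn (fun p : ℝ × ℝ => w i p.1 p.2 / u i p.1 p.2 -
      (v i p.1 p.2 / u i p.1 p.2) ^ 2) (Ioi 0 ×ˢ Icc 0 L) :=
    ((hS.cw i).div cu hne).sub (ch1.pow 2)
  have cht : ContinuousOn (fun p : ℝ × ℝ => (d i * w i p.1 p.2 +
      u i p.1 p.2 * (m p.2 - ∑ j, u j p.1 p.2)) / u i p.1 p.2) (Ioi 0 ×ˢ Icc 0 L) :=
    ((continuousOn_const.mul (hS.cw i)).add (cu.mul cR)).div cu hne
  have hd1 : ∀ s, 0 < s → DerivOn L (fun x => Real.log (u i s x))
      (fun x => v i s x / u i s x) := fun s hs x hx =>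
    (hS.dx i s hs x hx).log (hp s hs x hx).ne'
  have hd2 : ∀ s, 0 < s → DerivOn L (fun x => v i s x / u i s x)
      (fun x => w i s x / u i s x - (v i s x / u i s x) ^ 2) := fun s hs x hx => by
    have e := (hS.dxx i s hs x hx).div (hS.dx i s hs x hx) (hp s hs x hx).ne'
    have hu := (hp s hs x hx).ne'
    have e2 : (w i s x * u i s x - v i s x * v i s x) / u i s x ^ 2 =
        w i s x / u i s x - (v i s x / u i s x) ^ 2 := by
      field_simp
    rw [e2] at e
    exact e
  have hder := hy L (fun s x => Real.log (u i s x)) (fun s x => v i s x / u i s x)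
    (fun s x => w i s x / u i s x - (v i s x / u i s x) ^ 2)
    (fun s x => (d i * w i s x + u i s x * (m x - ∑ j, u j s x)) / u i s x)
    hL ch ch1 ch2 cht hd1 hd2
    (fun s hs => ⟨by simp only [hS.b0 i s hs, zero_div], by simp only [hS.bL i s hs, zero_div]⟩)
    (fun s hs x hx => (hS.dt i s hs x hx).log (hp s hs x hx).ne') t t0
  refine ⟨_, hder, ?_⟩
  -- the functions at time `t`
  have c1 : ContinuousOn (fun x => v i t x / u i t x) (Icc 0 L) :=
    slice (g := fun t x => v i t x / u i t x) ch1 (mem_Ioi.2 t0)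
  have c2 : ContinuousOn (fun x => w i t x / u i t x - (v i t x / u i t x) ^ 2) (Icc 0 L) :=
    slice (g := fun t x => w i t x / u i t x - (v i t x / u i t x) ^ 2) ch2 (mem_Ioi.2 t0)
  have c3 : ContinuousOn (fun x => (d i * w i t x + u i t x * (m x - ∑ j, u j t x)) / u i t x)
      (Icc 0 L) :=
    slice (g := fun t x => (d i * w i t x + u i t x * (m x - ∑ j, u j t x)) / u i t x) cht
      (mem_Ioi.2 t0)
  have c4 : ContinuousOn (fun x => m x - ∑ j, u j t x) (Icc 0 L) :=
    slice (g := fun t x => m x - ∑ j, u j t x) cR (mem_Ioi.2 t0)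
  -- the cubic term
  have hcub : ∫ x in (0)..L, (v i t x / u i t x) ^ 2 *
      (w i t x / u i t x - (v i t x / u i t x) ^ 2) = 0 := by
    have hd3 : DerivOn L (fun x => (v i t x / u i t x) ^ 3 / 3) (fun x =>
        (v i t x / u i t x) ^ 2 * (w i t x / u i t x - (v i t x / u i t x) ^ 2)) := fun x hx => by
      have e := ((hd2 t t0 x hx).pow 3).div_const 3
      have e' : (v i t x / u i t x) ^ 2 * (w i t x / u i t x - (v i t x / u i t x) ^ 2) =
          ((3 : ℕ) : ℝ) * (v i t x / u i t x) ^ (3 - 1) *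
            (w i t x / u i t x - (v i t x / u i t x) ^ 2) / 3 := by
        norm_num
        ring
      show HasDerivWithinAt (fun x => (v i t x / u i t x) ^ 3 / 3)
        ((v i t x / u i t x) ^ 2 * (w i t x / u i t x - (v i t x / u i t x) ^ 2)) _ _
      rw [e']
      exact e
    rw [integral_deriv hL hd3 ((c1.pow 2).mul c2), hS.b0 i t t0, hS.bL i t t0]
    simp
  -- integration of the pointwise inequality
  have i2 : IntervalIntegrable (fun x => (w i t x / u i t x - (v i t x / u i t x) ^ 2) ^ 2)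
      volume 0 L := (c2.pow 2).intervalIntegrable_of_Icc hL.le
  have iR : IntervalIntegrable (fun x => (m x - ∑ j, u j t x) ^ 2) volume 0 L :=
    (c4.pow 2).intervalIntegrable_of_Icc hL.le
  have i12 : IntervalIntegrable (fun x => (v i t x / u i t x) ^ 2 *
      (w i t x / u i t x - (v i t x / u i t x) ^ 2)) volume 0 L :=
    ((c1.pow 2).mul c2).intervalIntegrable_of_Icc hL.le
  have hmain : -(2 * ∫ x in (0)..L, (w i t x / u i t x - (v i t x / u i t x) ^ 2) *
      ((d i * w i t x + u i t x * (m x - ∑ j, u j t x)) / u i t x)) ≤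
      -(d i * ∫ x in (0)..L, (w i t x / u i t x - (v i t x / u i t x) ^ 2) ^ 2) +
        (∫ x in (0)..L, (m x - ∑ j, u j t x) ^ 2) / d i := by
    have e1 : -(2 * ∫ x in (0)..L, (w i t x / u i t x - (v i t x / u i t x) ^ 2) *
        ((d i * w i t x + u i t x * (m x - ∑ j, u j t x)) / u i t x)) =
        ∫ x in (0)..L, -2 * ((w i t x / u i t x - (v i t x / u i t x) ^ 2) *
        ((d i * w i t x + u i t x * (m x - ∑ j, u j t x)) / u i t x)) := by
      rw [intervalIntegral.integral_const_mul]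
      ring
    have e2 : -(d i * ∫ x in (0)..L, (w i t x / u i t x - (v i t x / u i t x) ^ 2) ^ 2) +
        (∫ x in (0)..L, (m x - ∑ j, u j t x) ^ 2) / d i =
        ∫ x in (0)..L, ((-d i) * (w i t x / u i t x - (v i t x / u i t x) ^ 2) ^ 2 +
          (1 / d i) * (m x - ∑ j, u j t x) ^ 2 + (-2 * d i) * ((v i t x / u i t x) ^ 2 *
            (w i t x / u i t x - (v i t x / u i t x) ^ 2))) := by
      rw [intervalIntegral.integral_add ((i2.const_mul _).add (iR.const_mul _))
        (i12.const_mul _), intervalIntegral.integral_add (i2.const_mul _) (iR.const_mul _),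
        intervalIntegral.integral_const_mul, intervalIntegral.integral_const_mul,
        intervalIntegral.integral_const_mul, hcub]
      ring
    rw [e1, e2]
    refine intervalIntegral.integral_mono_on hL.le ?_ ?_ ?_
    · exact (((c2.mul c3).intervalIntegrable_of_Icc hL.le)).const_mul _
    · exact ((i2.const_mul _).add (iR.const_mul _)).add (i12.const_mul _)
    · intro x hx
      have hu := (hp t t0 x hx).ne'
      obtain ⟨a, ha⟩ : ∃ a, a = w i t x / u i t x - (v i t x / u i t x) ^ 2 := ⟨_, rfl⟩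
      obtain ⟨b, hb⟩ : ∃ b, b = v i t x / u i t x := ⟨_, rfl⟩
      obtain ⟨r, hr⟩ : ∃ r, r = m x - ∑ j, u j t x := ⟨_, rfl⟩
      have e3 : (d i * w i t x + u i t x * (m x - ∑ j, u j t x)) / u i t x =
          d i * (a + b ^ 2) + r := by
        rw [ha, hb, hr]
        field_simp
        ring
      rw [e3, ← ha, ← hb, ← hr]
      have e4 : 0 ≤ (d i * a + r) ^ 2 / d i := by positivity
      have e5 : (d i * a + r) ^ 2 / d i = d i * a ^ 2 + 2 * a * r + 1 / d i * r ^ 2 := by
        field_simp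
        ring
      rw [e5] at e4
      nlinarith [e4]
  have hyy : yy L u v i t ≤ L ^ 2 *
      ∫ x in (0)..L, (w i t x / u i t x - (v i t x / u i t x) ^ 2) ^ 2 := by
    have h0 : (fun x => v i t x / u i t x) 0 = 0 := by
      simp only [hS.b0 i t t0, zero_div]
    have e1 : ∀ x ∈ Icc 0 L, (v i t x / u i t x) ^ 2 ≤
        L * ∫ x in (0)..L, (w i t x / u i t x - (v i t x / u i t x) ^ 2) ^ 2 := fun x hx =>
      sq_le_of_zero hL (hd2 t t0) c2 h0 hx
    have i1 : IntervalIntegrable (fun x => (v i t x / u i t x) ^ 2) volume 0 L :=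
      (c1.pow 2).intervalIntegrable_of_Icc hL.le
    have e2 := intervalIntegral.integral_mono_on hL.le i1 intervalIntegrable_const e1
    rw [intervalIntegral.integral_const, sub_zero, smul_eq_mul] at e2
    unfold yy
    linarith
  have hfin : d i / L ^ 2 * yy L u v i t ≤
      d i * ∫ x in (0)..L, (w i t x / u i t x - (v i t x / u i t x) ^ 2) ^ 2 := by
    rw [div_mul_eq_mul_div, div_le_iff₀ (by positivity)]
    nlinarith [hyy, hdi]
  unfold R2
  linarith

end Pool.Agent.Lib.MP_4fbe7c_an.FC.H82
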